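import Pool.Agent.H37R3.K5.UBFin

/-!
# 3-graphs without a complete 3-graph on five vertices: a second condition for the bound `3/4`

`graphA`, ..., `graphF` are six 3-graphs on six vertices. For every `K_5^3`-free 3-graph `H` on
`n` vertices, `8 n³ |H| ≤ n⁶ + 240 N`, where `N` is the number of six-vertex sets which induce one of
these 3-graphs in `H`. Each of them has a vertex whose link graph is the complete bipartite graph
`K_{2,3}`, so `|H| ≤ n³/8` if no link graph of `H` contains `K_{2,3}` as an induced subgraph.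
-/

set_option autoImplicit false
set_option maxRecDepth 100000
open Finset
open scoped Classical

namespace Pool.Agent.Results.MP_a4d830_co.FiveCliqueBipartiteLinks

/-- The 3-graph `H` has no five vertices spanning all ten triples. -/
def K53Free {n : ℕ} (H : Finset (Finset (Fin n))) : Prop :=
  ∀ S : Finset (Fin n), S.card = 5 → ∃ s ⊆ S, s.card = 3 ∧ s ∉ H

/-- The set `S` of vertices induces a copy of the 3-graph `F` in `H`: there is a bijection from the
vertices of `F` to `S` that maps edges to edges and non-edges to non-edges. -/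
def Induces {k n : ℕ} (F : Finset (Finset (Fin k))) (H : Finset (Finset (Fin n)))
    (S : Finset (Fin n)) : Prop :=
  ∃ f : Fin k → Fin n, Function.Injective f ∧ univ.image f = S ∧
    ∀ t : Finset (Fin k), t.card = 3 → (t.image f ∈ H ↔ t ∈ F)

/-- The 3-graph on `0, ..., 5` with non-edges 012 134 234 135 235 145 245 345. -/
def graphA : Finset (Finset (Fin 6)) :=
  (univ : Finset (Fin 6)).powersetCard 3 \
    {{0, 1, 2}, {1, 3, 4}, {2, 3, 4}, {1, 3, 5}, {2, 3, 5}, {1, 4, 5}, {2, 4, 5}, {3, 4, 5}}

/-- The 3-graph on `0, ..., 5` with non-edges 012 013 234 235 145 245 345. -/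
def graphB : Finset (Finset (Fin 6)) :=
  (univ : Finset (Fin 6)).powersetCard 3 \
    {{0, 1, 2}, {0, 1, 3}, {2, 3, 4}, {2, 3, 5}, {1, 4, 5}, {2, 4, 5}, {3, 4, 5}}

/-- The 3-graph on `0, ..., 5` with non-edges 013 234 235 145 245 345. -/
def graphC : Finset (Finset (Fin 6)) :=
  (univ : Finset (Fin 6)).powersetCard 3 \
    {{0, 1, 3}, {2, 3, 4}, {2, 3, 5}, {1, 4, 5}, {2, 4, 5}, {3, 4, 5}}

/-- The 3-graph on `0, ..., 5` with non-edges 012 013 023 123 145 245 345. -/
def graphD : Finset (Finset (Fin 6)) :=
  (univ : Finset (Fin 6)).powersetCard 3 \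
    {{0, 1, 2}, {0, 1, 3}, {0, 2, 3}, {1, 2, 3}, {1, 4, 5}, {2, 4, 5}, {3, 4, 5}}

/-- The 3-graph on `0, ..., 5` with non-edges 014 234 015 235 245 345. -/
def graphE : Finset (Finset (Fin 6)) :=
  (univ : Finset (Fin 6)).powersetCard 3 \
    {{0, 1, 4}, {2, 3, 4}, {0, 1, 5}, {2, 3, 5}, {2, 4, 5}, {3, 4, 5}}

/-- The 3-graph on `0, ..., 5` with non-edges 234 015 235 245 345. -/
def graphF : Finset (Finset (Fin 6)) :=
  (univ : Finset (Fin 6)).powersetCard 3 \
    {{2, 3, 4}, {0, 1, 5}, {2, 3, 5}, {2, 4, 5}, {3, 4, 5}}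

/-- The number of sets of vertices which induce a copy of `graphA`, ..., `graphF` in `H`. -/
noncomputable def copies {n : ℕ} (H : Finset (Finset (Fin n))) : ℕ :=
  ((univ : Finset (Finset (Fin n))).filter fun S =>
    Induces graphA H S ∨ Induces graphB H S ∨ Induces graphC H S ∨ Induces graphD H S ∨ Induces graphE H S ∨ Induces graphF H S).card

/-- Some link graph of the 3-graph `H` contains the graph `F` as an induced subgraph: there are a
vertex `v` and an injection `f` from the vertices of `F` to the vertices other than `v` such that a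
pair `p` is an edge of `F` if and only if `v` and the image of `p` form an edge of `H`. -/
def LinkInduces {k n : ℕ} (F : Finset (Finset (Fin k))) (H : Finset (Finset (Fin n))) : Prop :=
  ∃ (v : Fin n) (f : Fin k → Fin n), Function.Injective f ∧ (∀ i, f i ≠ v) ∧
    ∀ p : Finset (Fin k), p.card = 2 → (insert v (p.image f) ∈ H ↔ p ∈ F)

/-- The complete bipartite graph with parts `0, 1` and `2, 3, 4`. -/
def bip : Finset (Finset (Fin 5)) := {{0, 2}, {0, 3}, {0, 4}, {1, 2}, {1, 3}, {1, 4}}

theorem img {k n : ℕ} (f : Fin k → Fin n) (t : Finset (Fin k)) :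
    @Finset.image _ _ (fun a b => Classical.propDecidable (a = b)) f t =
      @Finset.image _ _ (instDecidableEqFin n) f t := by
  ext v
  simp only [mem_image]

theorem ind_iff {n : ℕ} (F : Finset (Finset (Fin 6))) (H : Finset (Finset (Fin n)))
    (S : Finset (Fin n)) : Pool.Agent.H37R3.Cop.Induces F H S ↔ Induces F H S := by
  unfold Pool.Agent.H37R3.Cop.Induces Induces
  simp only [img]

theorem not_of {n : ℕ} {H : Finset (Finset (Fin n))} {F : Finset (Finset (Fin 6))}
    {X : Finset (Finset (Fin 5))} (v : Fin 6) (g : Fin 5 → Fin 6) (hg : Function.Injective g)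
    (hgv : ∀ i, g i ≠ v)
    (hX : ∀ p : Finset (Fin 5), p.card = 2 → (insert v (p.image g) ∈ F ↔ p ∈ X))
    (hc : ∀ p : Finset (Fin 5), p.card = 2 → (insert v (p.image g)).card = 3)
    (h : ¬ LinkInduces X H) (S : Finset (Fin n)) : ¬ Induces F H S := by
  rintro ⟨f, hf, -, hfe⟩
  refine h ⟨f v, f ∘ g, hf.comp hg, fun i hi => hgv i (hf hi), ?_⟩
  intro p hp
  rw [← hX p hp, ← hfe _ (hc p hp), image_insert, image_image]

theorem copies_six {n : ℕ} (H : Finset (Finset (Fin n))) :
    (((univ : Finset (Fin n)).powersetCard 6).filter fun S =>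
      Pool.Agent.H37R3.CopL.IndL Pool.Agent.H37R3.UB.FS H S).card ≤ copies H := by
  unfold copies
  refine card_le_card fun S hS => ?_
  rw [mem_filter] at hS ⊢
  refine ⟨mem_univ _, ?_⟩
  obtain ⟨-, F, hF, h⟩ := hS
  rw [ind_iff] at h
  have e : Pool.Agent.H37R3.UB.FS = [graphA, graphB, graphC, graphD, graphE, graphF] := by decide +kernel
  rw [e] at hF
  simp only [List.mem_cons, List.not_mem_nil, or_false] at hF
  rcases hF with rfl | rfl | rfl | rfl | rfl | rfl
  · exact Or.inl h
  · exact Or.inr (Or.inl h)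
  · exact Or.inr (Or.inr (Or.inl h))
  · exact Or.inr (Or.inr (Or.inr (Or.inl h)))
  · exact Or.inr (Or.inr (Or.inr (Or.inr (Or.inl h))))
  · exact Or.inr (Or.inr (Or.inr (Or.inr (Or.inr (h)))))

/-- Every `K_5^3`-free 3-graph `H` on `n` vertices satisfies `8 n³ |H| ≤ n⁶ + 240 N`, where `N` is the
number of sets of vertices which induce a copy of one of `graphA`, ..., `graphF`. If no link graph of
`H` contains `K_{2,3}` as an induced subgraph, then `|H| ≤ n³/8`. -/
theorem result :
    (∀ (n : ℕ) (H : Finset (Finset (Fin n))), (∀ e ∈ H, e.card = 3) → K53Free H →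
      8 * n ^ 3 * H.card ≤ n ^ 6 + 240 * copies H) ∧
    (∀ (n : ℕ) (H : Finset (Finset (Fin n))), (∀ e ∈ H, e.card = 3) → K53Free H →
      ¬ LinkInduces bip H → 8 * H.card ≤ n ^ 3) := by
  have main : ∀ (n : ℕ) (H : Finset (Finset (Fin n))), (∀ e ∈ H, e.card = 3) → K53Free H →
      8 * n ^ 3 * H.card ≤ n ^ 6 + 240 * copies H := by
    intro n H h3 hK
    rcases Nat.eq_zero_or_pos n with rfl | hn
    · simp
    · have h := Pool.Agent.H37R3.UB.main (V := Fin n) h3 hK (by rw [Fintype.card_fin]; exact hn)
      rw [Fintype.card_fin] at h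
      exact h.trans (Nat.add_le_add_left (Nat.mul_le_mul_left _ (copies_six H)) _)
  refine ⟨main, ?_⟩
  intro n H h3 hK hX
  rcases Nat.eq_zero_or_pos n with rfl | hn
  · have hH : H = ∅ := by
      rw [eq_empty_iff_forall_notMem]
      intro e he
      have h1 := h3 e he
      have h2 : e.card ≤ (univ : Finset (Fin 0)).card := card_le_univ e
      rw [card_univ, Fintype.card_fin] at h2
      omega
    rw [hH]
    simp
  · have h := main n H h3 hK
    have h0 : copies H = 0 := by
      unfold copies
      rw [card_eq_zero, filter_eq_empty_iff]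
      rintro S - (hS | hS | hS | hS | hS | hS)
      · exact not_of 1 ![0, 2, 3, 4, 5] (by decide) (by decide) (by decide +kernel)
          (by decide +kernel) hX S hS
      · exact not_of 2 ![0, 1, 3, 4, 5] (by decide) (by decide) (by decide +kernel)
          (by decide +kernel) hX S hS
      · exact not_of 3 ![0, 1, 2, 4, 5] (by decide) (by decide) (by decide +kernel)
          (by decide +kernel) hX S hS
      · exact not_of 1 ![4, 5, 0, 2, 3] (by decide) (by decide) (by decide +kernel)
          (by decide +kernel) hX S hS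
      · exact not_of 4 ![0, 1, 2, 3, 5] (by decide) (by decide) (by decide +kernel)
          (by decide +kernel) hX S hS
      · exact not_of 5 ![0, 1, 2, 3, 4] (by decide) (by decide) (by decide +kernel)
          (by decide +kernel) hX S hS
    rw [h0] at h
    have h1 : n ^ 3 * (8 * H.card) ≤ n ^ 3 * n ^ 3 := by
      calc n ^ 3 * (8 * H.card) = 8 * n ^ 3 * H.card := by ring
        _ ≤ n ^ 6 + 240 * 0 := h
        _ = n ^ 3 * n ^ 3 := by ring
    exact Nat.le_of_mul_le_mul_left h1 (by positivity)

end Pool.Agent.Results.MP_a4d830_co.FiveCliqueBipartiteLinks
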