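import Pool.Agent.H37R3.Lag.QAFin
import Pool.Agent.H37R3.Lag.QBFin

/-!
# 3-graphs without a complete 3-graph on five vertices and without one further 3-graph

`graphA` is the five-vertex 3-graph with the non-edges `134, 234`, and `graphB` the one with the
non-edges `012, 134, 234`. If a `K_5^3`-free 3-graph `H` on `n` vertices contains no induced copy of
`graphA`, or if it contains no induced copy of `graphB`, then `|H| ≤ (0.7501/6) n³`. Turán's
conjecture is the bound with `3/4` for all `K_5^3`-free 3-graphs.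

Outline: the sum of squares method for six-vertex structures is combined with the fact that in a
structure with the maximum number of edges all degrees are equal up to `O(n)`, since a vertex can be
replaced by a clone of another one. This is legitimate since every pair of vertices of the excluded
3-graphs is contained in an edge.
-/

set_option autoImplicit false
set_option maxRecDepth 100000
open Finset
open scoped Classical

namespace Pool.Agent.Results.MP_a4d830_co.FiveVertexPattern

/-- The 3-graph `H` has no five vertices spanning all ten triples. -/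
def K53Free {n : ℕ} (H : Finset (Finset (Fin n))) : Prop :=
  ∀ S : Finset (Fin n), S.card = 5 → ∃ s ⊆ S, s.card = 3 ∧ s ∉ H

/-- The 3-graph `H` contains an induced copy of the 3-graph `F`: there is an injection of the
vertices of `F` that maps edges to edges and non-edges to non-edges. -/
def Induces {k n : ℕ} (F : Finset (Finset (Fin k))) (H : Finset (Finset (Fin n))) : Prop :=
  ∃ f : Fin k → Fin n, Function.Injective f ∧
    ∀ t : Finset (Fin k), t.card = 3 → (t.image f ∈ H ↔ t ∈ F)

/-- The 3-graph on `0, ..., 4` with non-edges 134 234. -/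
def graphA : Finset (Finset (Fin 5)) :=
  (univ : Finset (Fin 5)).powersetCard 3 \ {{1, 3, 4}, {2, 3, 4}}

/-- The 3-graph on `0, ..., 4` with non-edges 012 134 234. -/
def graphB : Finset (Finset (Fin 5)) :=
  (univ : Finset (Fin 5)).powersetCard 3 \ {{0, 1, 2}, {1, 3, 4}, {2, 3, 4}}

theorem img {k n : ℕ} (f : Fin k → Fin n) (t : Finset (Fin k)) :
    @Finset.image _ _ (fun a b => Classical.propDecidable (a = b)) f t =
      @Finset.image _ _ (instDecidableEqFin n) f t := by
  ext v
  simp only [mem_image]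

theorem ind_iff {n : ℕ} (F : Finset (Finset (Fin 5))) (H : Finset (Finset (Fin n))) :
    Pool.Agent.H37R3.Cop5.Induces5 F H ↔ Induces F H := by
  unfold Pool.Agent.H37R3.Cop5.Induces5 Induces
  simp only [img]

theorem maskA : Pool.Agent.H37R3.Cop5.Mask5 255 graphA :=
  ⟨by decide +kernel, by decide +kernel⟩

theorem maskB : Pool.Agent.H37R3.Cop5.Mask5 254 graphB :=
  ⟨by decide +kernel, by decide +kernel⟩

theorem main (n : ℕ) (H : Finset (Finset (Fin n))) (h3 : ∀ e ∈ H, e.card = 3) (hK : K53Free H)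
    (h : ¬ Induces graphA H ∨ ¬ Induces graphB H) : 60000 * H.card ≤ 7501 * n ^ 3 := by
  have h1 : 10000 * Pool.Agent.H37R3.Lag.TT (Pool.Agent.H122R2.N6.tri H) ≤ 7501 * n ^ 3 := by
    rcases h with h | h
    · have h0 := Pool.Agent.H37R3.Cop5.noB5 h3 hK Pool.Agent.H37R3.Cop5.okA maskA
        (fun hI => h ((ind_iff _ _).mp hI))
      have h1 := Pool.Agent.H37R3.QA.main (Pool.Agent.H122R2.N6.tri H)
        ⟨Pool.Agent.H122R2.N6.tri_sy H, fun a b c d e => h0 a b c d e⟩
      rwa [Fintype.card_fin] at h1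
    · have h0 := Pool.Agent.H37R3.Cop5.noB5 h3 hK Pool.Agent.H37R3.Cop5.okB maskB
        (fun hI => h ((ind_iff _ _).mp hI))
      have h1 := Pool.Agent.H37R3.QB.main (Pool.Agent.H122R2.N6.tri H)
        ⟨Pool.Agent.H122R2.N6.tri_sy H, fun a b c d e => h0 a b c d e⟩
      rwa [Fintype.card_fin] at h1
  have h2 := Pool.Agent.H122R2.N6.six_card_le h3
  unfold Pool.Agent.H37R3.Lag.TT at h1
  calc 60000 * H.card = 10000 * (6 * H.card) := by ring
    _ ≤ 10000 * ∑ a, ∑ b, ∑ c, Pool.Agent.H122R2.N6.tri H a b c := Nat.mul_le_mul_left _ h2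
    _ ≤ 7501 * n ^ 3 := h1

/-- A `K_5^3`-free 3-graph `H` on `n` vertices that contains no induced copy of `graphA`, or no
induced copy of `graphB`, has at most `(7501/60000) n³` edges; and for every `ε > 0` and all large
`n` it has at most `(0.7501 + ε) C(n,3)` edges. -/
theorem result :
    (∀ (n : ℕ) (H : Finset (Finset (Fin n))), (∀ e ∈ H, e.card = 3) → K53Free H →
      (¬ Induces graphA H ∨ ¬ Induces graphB H) → 60000 * H.card ≤ 7501 * n ^ 3) ∧
    (∀ ε : ℝ, ε > 0 → ∃ N : ℕ, ∀ n : ℕ, N ≤ n → ∀ H : Finset (Finset (Fin n)),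
      (∀ e ∈ H, e.card = 3) → K53Free H → (¬ Induces graphA H ∨ ¬ Induces graphB H) →
        (H.card : ℝ) ≤ (7501 / 10000 + ε) * ((n.choose 3 : ℕ) : ℝ)) := by
  refine ⟨main, ?_⟩
  intro ε hε
  obtain ⟨N, hN⟩ := exists_nat_gt (3 * (7501 / 10000 + ε) / ε)
  refine ⟨max N 3, fun n hn H h3 hK hI => ?_⟩
  have h := main n H h3 hK hI
  have hn3 : 3 ≤ n := (le_max_right _ _).trans hn
  have hnN : 3 * (7501 / 10000 + ε) / ε < (n : ℝ) :=
    hN.trans_le (by exact_mod_cast (le_max_left _ _).trans hn)
  rw [div_lt_iff₀ hε] at hnN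
  have hch : ((n.choose 3 : ℕ) : ℝ) = (n : ℝ) * (n - 1) * (n - 2) / 6 := by
    have h1 : n.choose 3 * 6 = n * (n - 1) * (n - 2) := by
      have := Nat.descFactorial_eq_factorial_mul_choose n 3
      have h2 : n.descFactorial 3 = (n - 2) * ((n - 1) * n) := by
        simp [Nat.descFactorial]
      rw [h2] at this
      have h3 : Nat.factorial 3 = 6 := rfl
      rw [h3] at this
      linarith
    have h4 : ((n.choose 3 * 6 : ℕ) : ℝ) = ((n * (n - 1) * (n - 2) : ℕ) : ℝ) := by rw [h1]
    push_cast [Nat.cast_sub (show 1 ≤ n by omega), Nat.cast_sub (show 2 ≤ n by omega)] at h4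
    linarith
  rw [hch]
  have hr : 60000 * (H.card : ℝ) ≤ 7501 * (n : ℝ) ^ 3 := by exact_mod_cast h
  have hn0 : (0 : ℝ) ≤ (n : ℝ) := by positivity
  have e1 : (n : ℝ) ^ 3 - 3 * (n : ℝ) ^ 2 ≤ (n : ℝ) * (n - 1) * (n - 2) := by nlinarith
  have e2 : 0 ≤ ((n : ℝ) * ε - 3 * (7501 / 10000 + ε)) * (n : ℝ) ^ 2 :=
    mul_nonneg (by linarith) (by positivity)
  have e3 := mul_le_mul_of_nonneg_left e1 (show (0 : ℝ) ≤ 7501 / 10000 + ε by positivity)
  nlinarith

end Pool.Agent.Results.MP_a4d830_co.FiveVertexPattern
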