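import Pool.Agent.H688R3.TuranGenLimit

/-!
# The large-clique constant `L_r = lim (m - 1)^(r-1) (1 - π(K_m^r))` for every uniformity

The notions are those of `Pool.Agent.H120R2.CliqueDefs`: `ex n r m = ex(n, K_m^r)` and
`turanDensity r m = π(K_m^r)`.

Outline.  Let `t(m) = 1 - π(K_m^r)`, the limit density of the smallest families of `r`-sets meeting
every `m`-set in a member.  Disjoint unions of such families on a fraction `x` and `1 - x` of the
vertices give `t(a + b - 1) ≤ t(a) x^r + t(b) (1 - x)^r`, and the best `x` makes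
`S(y) = t(y + 1)^(-1/(r-1))` superadditive on `y ≥ r - 1`.  Fekete's lemma gives the limit of
`S(y) / y`, hence of `(m - 1)^(r-1) t(m)`, which is its infimum over `m ≥ r`.  It exceeds `(r-1)!` by
the improvement of de Caen's bound in `Pool.Agent.H449R2.DC`, and for large `r` the term `m = r + 1`
of the infimum is bounded by the determinant codes of `Pool.Agent.H369R2.TD`.
-/

open Filter Topology

namespace Pool.Agent.Results.MP_a4d830_co.LargeCliqueLimit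

open Pool.Agent.H120R2.Clique

/-- There is `r₀` such that for every `r ≥ 3` there is a real `L` for which:
all limits `π(K_m^r)` exist; `(m - 1)^(r-1) (1 - π(K_m^r))` converges to `L` as `m → ∞`; its terms
for `m ≥ r` are all at least `L`; `(1 + 1/(2^(2r+26) r^9)) (r-1)! ≤ L ≤ (r-1)^(r-1)`; and if `r ≥ r₀`,
then `L ≤ 2.081 r^(r-1)/(r+1)` and `1 - π(K_m^r) ≤ 2.081/((r+1) ⌊(m-1)/r⌋^(r-1))` for all `m > r`. -/
theorem result : ∃ r₀ : ℕ, ∀ r : ℕ, 3 ≤ r → ∃ L : ℝ,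
    (∀ m : ℕ, Tendsto (fun n : ℕ => (ex n r m : ℝ) / (n.choose r : ℝ)) atTop
      (𝓝 (turanDensity r m))) ∧
    Tendsto (fun m : ℕ => ((m : ℝ) - 1) ^ (r - 1) * (1 - turanDensity r m)) atTop (𝓝 L) ∧
    (∀ m : ℕ, r ≤ m → L ≤ ((m : ℝ) - 1) ^ (r - 1) * (1 - turanDensity r m)) ∧
    (1 + 1 / (2 ^ (2 * r + 26) * (r : ℝ) ^ 9)) * ((r - 1).factorial : ℝ) ≤ L ∧
    L ≤ ((r : ℝ) - 1) ^ (r - 1) ∧
    (r₀ ≤ r → L ≤ 2.081 * (r : ℝ) ^ (r - 1) / ((r : ℝ) + 1) ∧
      ∀ m : ℕ, r < m → 1 - turanDensity r m ≤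
        2.081 / (((r : ℝ) + 1) * (((m - 1) / r : ℕ) : ℝ) ^ (r - 1))) := by
  obtain ⟨r₀, h⟩ := Pool.Agent.H688R3.TuranGen.main
  refine ⟨r₀, fun r hr => ?_⟩
  obtain ⟨L, h1, h2, h3, h4, h5⟩ := h r hr
  have e : (2.081 : ℝ) = 2081 / 1000 := by norm_num
  rw [e]
  exact ⟨L, fun m => ratio_tendsto r m, h3, h4, h1, h2, h5⟩

end Pool.Agent.Results.MP_a4d830_co.LargeCliqueLimit
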