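import Pool.Agent.H613T.Mid4

set_option autoImplicit false

namespace Pool.Agent.Results.MP_a4d830_co.UniformUpper

open Finset Filter Topology

/-- `G` is a `k`-graph on `{0, …, n-1}` without `K_m^k`: its members are `k`-sets, and every
`m`-set has a `k`-subset which is not in `G`. -/
def IsFree (n m k : ℕ) (G : Finset (Finset (Fin n))) : Prop :=
  (∀ Z ∈ G, Z.card = k) ∧ ∀ Y : Finset (Fin n), Y.card = m → ∃ Z ⊆ Y, Z.card = k ∧ Z ∉ G

/-- The Turán function `ex(n, K_m^k)`: the largest size of a `K_m^k`-free `k`-graph on `n`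
vertices. -/
noncomputable def ex (n m k : ℕ) : ℕ :=
  sSup {e : ℕ | ∃ G : Finset (Finset (Fin n)), IsFree n m k G ∧ G.card = e}

theorem ex_ge {n m k : ℕ} (hkm : k ≤ m) {c : ℝ} (h : Pool.Agent.H613T.TD (m - k) k c) :
    (1 - c) * (n.choose k : ℝ) ≤ (ex n m k : ℝ) := by
  obtain ⟨F, ⟨hF1, hF2⟩, hF3⟩ := h n
  have hsub : F ⊆ powersetCard k (univ : Finset (Fin n)) := fun Z hZ =>
    mem_powersetCard.2 ⟨subset_univ _, (hF1 Z hZ).2⟩
  have hcard : ((powersetCard k (univ : Finset (Fin n))) \ F).card = n.choose k - F.card := by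
    rw [card_sdiff_of_subset hsub, card_powersetCard, card_univ, Fintype.card_fin]
  have hle : F.card ≤ n.choose k := by
    have := card_le_card hsub
    rwa [card_powersetCard, card_univ, Fintype.card_fin] at this
  have hbdd : BddAbove {e : ℕ | ∃ G : Finset (Finset (Fin n)), IsFree n m k G ∧ G.card = e} := by
    refine ⟨n.choose k, ?_⟩
    rintro e ⟨G, hG, rfl⟩
    have h1 : G ⊆ powersetCard k (univ : Finset (Fin n)) := fun Z hZ =>
      mem_powersetCard.2 ⟨subset_univ _, hG.1 Z hZ⟩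
    have := card_le_card h1
    rwa [card_powersetCard, card_univ, Fintype.card_fin] at this
  have hmem : n.choose k - F.card ∈
      {e : ℕ | ∃ G : Finset (Finset (Fin n)), IsFree n m k G ∧ G.card = e} := by
    refine ⟨(powersetCard k (univ : Finset (Fin n))) \ F, ⟨?_, ?_⟩, hcard⟩
    · intro Z hZ
      exact (mem_powersetCard.1 (mem_sdiff.1 hZ).1).2
    · intro Y hY
      obtain ⟨Z, hZ, hZY⟩ := hF2 Y (subset_univ _) (by omega)
      exact ⟨Z, hZY, (hF1 Z hZ).2, fun hmem => (mem_sdiff.1 hmem).2 hZ⟩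
  have h1 : n.choose k - F.card ≤ ex n m k := le_csSup hbdd hmem
  have h2 : ((n.choose k - F.card : ℕ) : ℝ) ≤ (ex n m k : ℝ) := by exact_mod_cast h1
  rw [Nat.cast_sub hle] at h2
  linarith

/-- There is an absolute constant `C` such that, for all `m > k ≥ 2`, all `n` satisfy
`ex(n, K_m^k) ≥ (1 - C k log k / C(m-1, k-1)) C(n, k)`; in particular every limit of
`ex(n, K_m^k) / C(n, k)` is at least `1 - C k log k / C(m-1, k-1)`. -/
theorem result : ∃ C : ℝ, ∀ k m : ℕ, 2 ≤ k → k < m →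
    (∀ n : ℕ, (1 - C * (k * Real.log k) / ((m - 1).choose (k - 1) : ℝ)) * (n.choose k : ℝ) ≤
      (ex n m k : ℝ)) ∧
    ∀ p : ℝ, Tendsto (fun n : ℕ => (ex n m k : ℝ) / (n.choose k : ℝ)) atTop (𝓝 p) →
      1 - C * (k * Real.log k) / ((m - 1).choose (k - 1) : ℝ) ≤ p := by
  obtain ⟨C, _, hC⟩ := Pool.Agent.H613T.TD.uniform
  refine ⟨C, fun k m hk hkm => ?_⟩
  have h1 : ∀ n : ℕ, (1 - C * (k * Real.log k) / ((m - 1).choose (k - 1) : ℝ)) *
      (n.choose k : ℝ) ≤ (ex n m k : ℝ) := by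
    intro n
    have := ex_ge (n := n) hkm.le (hC k m hk hkm.le)
    rwa [mul_div_assoc]
  refine ⟨h1, fun p hp => ?_⟩
  apply ge_of_tendsto hp
  filter_upwards [eventually_ge_atTop k] with n hn
  have hpos : (0 : ℝ) < (n.choose k : ℝ) := by exact_mod_cast Nat.choose_pos hn
  rw [le_div_iff₀ hpos]
  exact h1 n

end Pool.Agent.Results.MP_a4d830_co.UniformUpper
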